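import Pool.Agent.Helper26.GeprociCI
import Pool.Agent.Helper26.GeprociPts

/-!
Two non-trivial geproci sets in projective three-space with isomorphic matroids that are not
projectively equivalent.
-/

open MvPolynomial

namespace Pool.Agent.Results.MP_586029_ag.GeprociMatroid

/-- The vector space `ℂ⁴`. -/
abbrev V4 : Type := Fin 4 → ℂ

/-- The vector space `ℂ³`. -/
abbrev V3 : Type := Fin 3 → ℂ

/-- Complex projective three-space. -/
abbrev P3 : Type := Projectivization ℂ V4

/-- The coordinate ring of the plane. -/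
abbrev R3 : Type := MvPolynomial (Fin 3) ℂ

/-- The homogeneous ideal of the image of `Z` under the projection induced by the linear map
`π`: the polynomials vanishing at `π x` for all representatives `x` of all points of `Z`. -/
noncomputable def imageIdeal (Z : Set P3) (π : V4 →ₗ[ℂ] V3) : Ideal R3 where
  carrier := {F | ∀ (x : V4) (hx : x ≠ 0), Projectivization.mk ℂ x hx ∈ Z → eval (π x) F = 0}
  zero_mem' := fun _ _ _ => by rw [map_zero]
  add_mem' := fun {F G} hF hG x hx hZ => by rw [map_add, hF x hx hZ, hG x hx hZ, add_zero]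
  smul_mem' := fun c F hF x hx hZ => by rw [smul_eq_mul, map_mul, hF x hx hZ, mul_zero]

/-- The ideal is generated by a regular sequence of two forms of positive degree. -/
def IsCompleteIntersection (I : Ideal R3) : Prop :=
  ∃ (F G : R3) (a b : ℕ), 0 < a ∧ 0 < b ∧ F.IsHomogeneous a ∧ G.IsHomogeneous b ∧
    RingTheory.Sequence.IsRegular R3 [F, G] ∧ I = Ideal.span {F, G}

/-- `Z` is a finite set and for a general point `P` (outside the zero set of some nonzero
polynomial `D`) the image of `Z` under the projection from `P` to a plane is a complete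
intersection. The projection from `P` is given by a linear map `π` from `ℂ⁴` to `ℂ³` whose
kernel is the line `P`. -/
def IsGeproci (Z : Set P3) : Prop :=
  Z.Finite ∧ ∃ D : MvPolynomial (Fin 4) ℂ, D ≠ 0 ∧ ∀ P : V4, eval P D ≠ 0 →
    ∀ π : V4 →ₗ[ℂ] V3, LinearMap.ker π = Submodule.span ℂ {P} →
      IsCompleteIntersection (imageIdeal Z π)

/-- `Z` lies in a plane. -/
def IsDegenerate (Z : Set P3) : Prop :=
  ∃ φ : V4 →ₗ[ℂ] ℂ, φ ≠ 0 ∧ ∀ z ∈ Z, φ z.rep = 0

/-- `Z` is an `(a, b)`-grid for some `1 ≤ a ≤ b`: the set of intersection points of `a` pairwise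
skew lines with `b` pairwise skew lines, each line of the first family meeting each line of the
second family in exactly one point. Lines are two-dimensional subspaces of `ℂ⁴`. -/
def IsGrid (Z : Set P3) : Prop :=
  ∃ a b : ℕ, 1 ≤ a ∧ a ≤ b ∧ ∃ (A : Fin a → Submodule ℂ V4) (B : Fin b → Submodule ℂ V4),
    (∀ i, Module.finrank ℂ (A i) = 2) ∧ (∀ j, Module.finrank ℂ (B j) = 2) ∧
    (∀ i i', i ≠ i' → A i ⊓ A i' = ⊥) ∧ (∀ j j', j ≠ j' → B j ⊓ B j' = ⊥) ∧
    (∀ i j, Module.finrank ℂ (A i ⊓ B j : Submodule ℂ V4) = 1) ∧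
    Z = {z | ∃ i j, z.submodule = A i ⊓ B j}

/-- A non-trivial geproci set. -/
def IsNontrivialGeproci (Z : Set P3) : Prop := IsGeproci Z ∧ ¬ IsDegenerate Z ∧ ¬ IsGrid Z

/-- The matroids of `Z` and `Z'` are isomorphic: there is a bijection `e` from `Z` to `Z'` such
that a subset `A` of `Z` is independent (representatives of its points are linearly
independent) if and only if its image is independent. -/
def MatroidsIsomorphic (Z Z' : Set P3) : Prop :=
  ∃ e : Z ≃ Z', ∀ A : Set Z,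
    LinearIndependent ℂ (fun a : A => (a.1 : P3).rep) ↔
      LinearIndependent ℂ (fun a : A => (e a.1 : P3).rep)

/-- `Z` is mapped onto `Z'` by a projective transformation. -/
def ProjectivelyEquivalent (Z Z' : Set P3) : Prop :=
  ∃ g : V4 ≃ₗ[ℂ] V4, Projectivization.map g.toLinearMap g.injective '' Z = Z'

open Pool.Agent.Helper26.GeprociPts Pool.Agent.Helper26.GeprociCI

/-- The union of two `D₄` configurations on the same four skew lines. -/
noncomputable def Zt (t : ℂ) : Set P3 :=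
  Set.range fun ij : Fin 4 × Fin 6 => Projectivization.mk ℂ (pt t ij.1 ij.2) (pt_ne_zero t _ _)

lemma mem_Zt {t : ℂ} {x : V4} (hx : x ≠ 0) (h : Projectivization.mk ℂ x hx ∈ Zt t) :
    ∃ i j, ∃ c : ℂ, c ≠ 0 ∧ x = c • pt t i j := by
  obtain ⟨⟨i, j⟩, hij⟩ := h
  rw [Projectivization.mk_eq_mk_iff'] at hij
  obtain ⟨c, hc⟩ := hij
  simp only at hc
  have hc0 : c ≠ 0 := by
    rintro rfl
    rw [zero_smul] at hc
    exact pt_ne_zero t i j hc.symm
  refine ⟨i, j, c⁻¹, inv_ne_zero hc0, ?_⟩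
  rw [← hc, smul_smul, inv_mul_cancel₀ hc0, one_smul]

lemma smul_pt_mem {t : ℂ} {c : ℂ} (i : Fin 4) (j : Fin 6) (hc : c • pt t i j ≠ 0) :
    Projectivization.mk ℂ (c • pt t i j) hc ∈ Zt t := by
  refine ⟨(i, j), ?_⟩
  rw [Projectivization.mk_eq_mk_iff']
  refine ⟨c⁻¹, ?_⟩
  have hc0 : c ≠ 0 := by
    rintro rfl
    exact hc (zero_smul _ _)
  simp only
  rw [smul_smul, inv_mul_cancel₀ hc0, one_smul]

/-! ### The polynomial describing general points -/

/-- The generic point. -/
noncomputable def XX : Fin 4 → MvPolynomial (Fin 4) ℂ := X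

/-- The polynomial whose nonvanishing at `P` guarantees that `P` is general enough. -/
noncomputable def DD (t : ℂ) : MvPolynomial (Fin 4) ℂ :=
  (∏ i : Fin 4, ∏ k : Fin 4, ∏ j : Fin 6,
    if i = k then 1 else ell XX (fun s => C (pt t i j s)) k) *
  ∏ i : Fin 4, (Phi XX (fun s => C (lpt i 0 1 s)) * Psi (C t) XX (fun s => C (lpt i 0 1 s)))

lemma eval_ell (P x : V4) (k : Fin 4) :
    eval P (ell XX (fun s => C (x s)) k) = ell P x k := by
  fin_cases k <;> simp [ell, ell', aa, bb, XX]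

lemma eval_Phi (P x : V4) : eval P (Phi XX (fun s => C (x s))) = Phi P x := by
  simp [Phi, Phi', aa, bb, XX]

lemma eval_Psi (t : ℂ) (P x : V4) :
    eval P (Psi (C t) XX (fun s => C (x s))) = Psi t P x := by
  simp [Psi, Psi', aa, bb, XX]

lemma DD_ne_zero {t : ℂ} (ht : Good t) : DD t ≠ 0 := by
  unfold DD
  refine mul_ne_zero ?_ ?_
  · rw [Finset.prod_ne_zero_iff]
    intro i _
    rw [Finset.prod_ne_zero_iff]
    intro k _
    rw [Finset.prod_ne_zero_iff]
    intro j _
    split_ifs with h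
    · exact one_ne_zero
    · intro h0
      have h1 := congrArg (eval fun s => (U i k s : ℂ)) h0
      rw [eval_ell, map_zero] at h1
      unfold pt at h1
      rw [ell_U i k h] at h1
      exact al_ne_zero ht j (by linear_combination h1 / 2)
  · rw [Finset.prod_ne_zero_iff]
    intro i _
    refine mul_ne_zero ?_ ?_
    · intro h0
      have h1 := congrArg (eval fun s => (U1 i s : ℂ)) h0
      rw [eval_Phi, map_zero, Phi_U1] at h1
      norm_num at h1
    · intro h0
      have h1 := congrArg (eval fun s => (U2 i s : ℂ)) h0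
      rw [eval_Psi, map_zero, Psi_U2] at h1
      have h2 : 4 * t * (t - 1) * (t + 1) * (1 - 3 * t) * (1 + 3 * t) = 0 := by
        linear_combination -h1
      have := ht.h0
      have := ht.h1
      have := ht.h2
      have := ht.h4
      have := ht.h5
      simp_all

lemma DD_general {t : ℂ} {P : V4} (h : eval P (DD t) ≠ 0) :
    (∀ i k j, i ≠ k → ell P (pt t i j) k ≠ 0) ∧
      ∀ i, Phi P (lpt i 0 1) * Psi t P (lpt i 0 1) ≠ 0 := by
  unfold DD at h
  rw [map_mul] at h
  have h1 := left_ne_zero_of_mul h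
  have h2 := right_ne_zero_of_mul h
  constructor
  · intro i k j hik
    rw [map_prod, Finset.prod_ne_zero_iff] at h1
    have h3 := h1 i (Finset.mem_univ _)
    rw [map_prod, Finset.prod_ne_zero_iff] at h3
    have h4 := h3 k (Finset.mem_univ _)
    rw [map_prod, Finset.prod_ne_zero_iff] at h4
    have h5 := h4 j (Finset.mem_univ _)
    rw [if_neg hik, eval_ell] at h5
    exact h5
  · intro i
    rw [map_prod, Finset.prod_ne_zero_iff] at h2
    have h3 := h2 i (Finset.mem_univ _)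
    rw [map_mul, eval_Phi, eval_Psi] at h3
    exact h3

/-! ### The projection from a general point -/

open Pool.Agent.Helper26.LineArr (lin lin_isHomogeneous)

lemma sum_single (y : V3) : y = ∑ s, y s • (Pi.single s 1 : V3) := by
  funext r
  simp [Finset.sum_apply, Pi.single_apply]

lemma ell_linear (P : V4) (σ : V3 →ₗ[ℂ] V4) (k : Fin 4) (y : V3) :
    ∑ s, ell P (σ (Pi.single s 1)) k * y s = ell P (σ y) k := by
  have h1 : σ y = ∑ s, y s • σ (Pi.single s 1) := by
    conv_lhs => rw [sum_single y]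
    rw [map_sum]
    simp only [map_smul]
  rw [h1]
  simp only [Fin.sum_univ_three]
  fin_cases k <;> simp [ell, ell', aa, bb] <;> ring

/-- The section `σ` as a vector of linear forms. -/
noncomputable def xs (σ : V3 →ₗ[ℂ] V4) : Fin 4 → R3 := fun k => lin fun s => σ (Pi.single s 1) k

lemma eval_xs (σ : V3 →ₗ[ℂ] V4) (y : V3) (k : Fin 4) : eval y (xs σ k) = σ y k := by
  unfold xs
  rw [eval_lin]
  have h1 : σ y = ∑ s, y s • σ (Pi.single s 1) := by
    conv_lhs => rw [sum_single y]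
    rw [map_sum]
    simp only [map_smul]
  rw [h1]
  simp only [Fin.sum_univ_three, Pi.add_apply, Pi.smul_apply, smul_eq_mul]
  ring

/-- The sextic. -/
noncomputable def GG (t : ℂ) (P : V4) (σ : V3 →ₗ[ℂ] V4) : R3 :=
  Phi (fun k => C (P k)) (xs σ) * Psi (C t) (fun k => C (P k)) (xs σ)

lemma eval_GG (t : ℂ) (P : V4) (σ : V3 →ₗ[ℂ] V4) (y : V3) :
    eval y (GG t P σ) = Phi P (σ y) * Psi t P (σ y) := by
  simp [GG, Phi, Phi', Psi, Psi', aa, bb, eval_xs]

lemma xs_hom (σ : V3 →ₗ[ℂ] V4) (k : Fin 4) : (xs σ k).IsHomogeneous 1 := lin_isHomogeneous _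

lemma aa_hom (P : V4) (σ : V3 →ₗ[ℂ] V4) (k : Fin 3) :
    (aa (fun k => (C (P k) : R3)) (xs σ) k).IsHomogeneous 1 := by
  have h : ∀ a b : Fin 4, (C (P a) * xs σ b - xs σ 0 * C (P b) : R3).IsHomogeneous 1 := by
    intro a b
    refine ((xs_hom σ b).C_mul (P a)).sub ?_
    rw [mul_comm]
    exact (xs_hom σ 0).C_mul (P b)
  fin_cases k
  · exact h 0 1
  · exact h 0 2
  · exact h 0 3

lemma bb_hom (P : V4) (σ : V3 →ₗ[ℂ] V4) (k : Fin 3) :
    (bb (fun k => (C (P k) : R3)) (xs σ) k).IsHomogeneous 1 := by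
  have h : ∀ a b c d : Fin 4, (C (P a) * xs σ b - C (P c) * xs σ d : R3).IsHomogeneous 1 :=
    fun a b c d => ((xs_hom σ b).C_mul (P a)).sub ((xs_hom σ d).C_mul (P c))
  fin_cases k
  · exact h 2 3 3 2
  · exact h 3 1 1 3
  · exact h 1 2 2 1

lemma C_mul_hom {p : R3} {n : ℕ} (c : ℂ) (hp : p.IsHomogeneous n) : (C c * p).IsHomogeneous n :=
  hp.C_mul c

lemma Phi'_hom {a b : Fin 3 → R3} (ha : ∀ k, (a k).IsHomogeneous 1)
    (hb : ∀ k, (b k).IsHomogeneous 1) : (Phi' a b).IsHomogeneous 3 := by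
  unfold Phi'
  refine IsHomogeneous.sub ?_ ?_
  · exact (((ha 0).sub (hb 0)).mul ((ha 1).sub (hb 1))).mul ((ha 2).sub (hb 2))
  · exact (((ha 0).add (hb 0)).mul ((ha 1).add (hb 1))).mul ((ha 2).add (hb 2))

lemma Psi'_hom {t : ℂ} {a b : Fin 3 → R3} (ha : ∀ k, (a k).IsHomogeneous 1)
    (hb : ∀ k, (b k).IsHomogeneous 1) : (Psi' (C t) a b).IsHomogeneous 3 := by
  have c3 : (C 3 : R3) = 3 := map_ofNat C 3
  have c2 : (C 2 : R3) = 2 := map_ofNat C 2
  have e1 : (1 - 3 * C t * C t : R3) = C (1 - 3 * t * t) := by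
    simp [map_sub, map_mul, c3]
  have e2 : (2 * C t * C t : R3) = C (2 * t * t) := by
    simp [map_mul, c2]
  have e3 : (2 * C t : R3) = C (2 * t) := by
    simp [map_mul, c2]
  have e4 : ((1 + 3 * C t * C t) ^ 3 : R3) = C ((1 + 3 * t * t) ^ 3) := by
    simp [map_add, map_mul, map_pow, c3]
  unfold Psi'
  rw [e1, e2, e3, e4]
  have hu : ∀ k, (a k - b k).IsHomogeneous 1 := fun k => (ha k).sub (hb k)
  have hs := ((hu 0).add (hu 1)).add (hu 2)
  refine IsHomogeneous.sub ?_ ?_
  · exact (((((hu 0).C_mul _).add (hs.C_mul _)).add (((hu 2).sub (hu 1)).C_mul _)).mul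
      ((((hu 1).C_mul _).add (hs.C_mul _)).add (((hu 0).sub (hu 2)).C_mul _))).mul
      ((((hu 2).C_mul _).add (hs.C_mul _)).add (((hu 1).sub (hu 0)).C_mul _))
  · exact ((((ha 0).add (hb 0)).mul ((ha 1).add (hb 1))).mul ((ha 2).add (hb 2))).C_mul _

lemma GG_hom (t : ℂ) (P : V4) (σ : V3 →ₗ[ℂ] V4) : (GG t P σ).IsHomogeneous 6 :=
  (Phi'_hom (aa_hom P σ) (bb_hom P σ)).mul (Psi'_hom (aa_hom P σ) (bb_hom P σ))

lemma geproci_aux {t : ℂ} (ht : Good t) {P : V4} (hP : eval P (DD t) ≠ 0) {π : V4 →ₗ[ℂ] V3}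
    (hπ : LinearMap.ker π = Submodule.span ℂ {P}) : IsCompleteIntersection (imageIdeal (Zt t) π) := by
  obtain ⟨gen1, gen2⟩ := DD_general hP
  -- surjectivity
  have hsurj : LinearMap.range π = ⊤ := by
    apply Submodule.eq_top_of_finrank_eq
    have h1 := LinearMap.finrank_range_add_finrank_ker π
    have h2 : Module.finrank ℂ (LinearMap.ker π) ≤ 1 := by
      rw [hπ]
      exact (finrank_span_le_card ({P} : Set V4)).trans (by simp)
    have h3 : Module.finrank ℂ (LinearMap.range π) ≤ Module.finrank ℂ V3 :=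
      Submodule.finrank_le _
    have h4 : Module.finrank ℂ V4 = 4 := by simp
    have h5 : Module.finrank ℂ V3 = 3 := by simp
    omega
  obtain ⟨σ, hσ⟩ := LinearMap.exists_rightInverse_of_surjective π hsurj
  have hπσ : ∀ y, π (σ y) = y := fun y => by
    have := LinearMap.congr_fun hσ y
    simpa using this
  have hσπ : ∀ x, ∃ κ : ℂ, σ (π x) = x + κ • P := by
    intro x
    have h1 : σ (π x) - x ∈ LinearMap.ker π := by
      rw [LinearMap.mem_ker, map_sub, hπσ, sub_self]
    rw [hπ, Submodule.mem_span_singleton] at h1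
    obtain ⟨κ, hκ⟩ := h1
    exact ⟨κ, by rw [hκ]; abel⟩
  have hellx : ∀ x k, ∑ s, ell P (σ (Pi.single s 1)) k * π x s = ell P x k := by
    intro x k
    rw [ell_linear]
    obtain ⟨κ, hκ⟩ := hσπ x
    have := ell_smul_add P x 1 κ
    rw [one_smul, one_smul] at this
    rw [hκ, this]
  have hGGx : ∀ x (c : ℂ), eval (c • π x) (GG t P σ) = c ^ 6 * (Phi P x * Psi t P x) := by
    intro x c
    rw [eval_GG, map_smul]
    obtain ⟨κ, hκ⟩ := hσπ x
    rw [hκ, smul_add, smul_smul, Phi_smul_add, Psi_smul_add]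
    ring
  set a : Fin 4 → V3 := fun i s => ell P (σ (Pi.single s 1)) i with ha
  set w : Fin 4 → Fin 6 → V3 := fun i j => π (pt t i j) with hw
  have hoff : ∀ i k j, i ≠ k → ∑ s, a k s * w i j s ≠ 0 := by
    intro i k j hik
    rw [hellx]
    exact gen1 i k j hik
  have haw : ∀ i j, ∑ s, a i s * w i j s = 0 := by
    intro i j
    rw [hellx, pt, ell_lpt_self]
  have hne : ∀ i : Fin 4, ∃ k, i ≠ k := by decide
  have H : Data a w (GG t P σ) := by
    refine ⟨?_, ?_, haw, hoff, ?_, GG_hom t P σ, ?_, ?_⟩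
    · intro i h0
      obtain ⟨k, hk⟩ := hne i
      apply hoff k i 0 hk.symm
      rw [h0]
      simp
    · intro i j h0
      obtain ⟨k, hk⟩ := hne i
      apply hoff i k j hk
      rw [h0]
      simp
    · intro i j j' hjj c hc
      have h1 : pt t i j - c • pt t i j' ∈ LinearMap.ker π := by
        rw [LinearMap.mem_ker, map_sub, map_smul]
        change w i j - c • w i j' = 0
        rw [hc, sub_self]
      rw [hπ, Submodule.mem_span_singleton] at h1
      obtain ⟨κ, hκ⟩ := h1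
      by_cases hκ0 : κ = 0
      · rw [hκ0, zero_smul] at hκ
        exact ne_of_pt_ne ht hjj c (sub_eq_zero.mp hκ.symm)
      · obtain ⟨k, hk⟩ := hne i
        apply gen1 k i 0 hk.symm
        have hPl : P = lpt i (κ⁻¹ * (al t j - c * al t j')) (κ⁻¹ * (be t j - c * be t j')) := by
          have : P = κ⁻¹ • (κ • P) := by rw [smul_smul, inv_mul_cancel₀ hκ0, one_smul]
          rw [this, hκ]
          funext s
          simp only [pt, lpt, Pi.smul_apply, Pi.sub_apply, smul_eq_mul]
          ring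
        rw [hPl, ell_lpt_left]
    · intro i j c _
      rw [hGGx, PhiPsi_pt, mul_zero]
    · intro i hdvd
      obtain ⟨q, hq⟩ := hdvd
      have h1 := congrArg (eval (π (lpt i 0 1))) hq
      rw [map_mul, eval_lin, hellx, ell_lpt_self, zero_mul] at h1
      have h2 := hGGx (lpt i 0 1) 1
      rw [one_smul, h1, one_pow, one_mul] at h2
      exact gen2 i h2.symm
  refine ⟨∏ i, lin (a i), GG t P σ, 4, 6, by norm_num, by norm_num, ?_, GG_hom t P σ,
    isRegular_of_data H 0 0, ?_⟩
  · have := IsHomogeneous.prod Finset.univ (fun i => lin (a i)) (fun _ => 1)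
      (fun i _ => lin_isHomogeneous _)
    simpa using this
  · apply le_antisymm
    · intro F hF
      apply mem_span_of_data H Finset.univ F
      intro i _ j c hc
      have hc0 : c • pt t i j ≠ 0 := smul_ne_zero hc (pt_ne_zero t i j)
      have := hF (c • pt t i j) hc0 (smul_pt_mem i j hc0)
      rw [map_smul] at this
      exact this
    · intro F hF
      rw [Ideal.mem_span_pair] at hF
      obtain ⟨α, β, rfl⟩ := hF
      intro x hx hxZ
      obtain ⟨i, j, c, hc, rfl⟩ := mem_Zt hx hxZ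
      have h1 : eval (π (c • pt t i j)) (∏ i, lin (a i)) = 0 := by
        rw [map_prod]
        apply Finset.prod_eq_zero (Finset.mem_univ i)
        rw [eval_lin, hellx]
        have := ell_smul_add P (pt t i j) c 0
        rw [zero_smul, add_zero] at this
        rw [this, Pi.smul_apply, pt, ell_lpt_self, smul_zero]
      have h2 : eval (π (c • pt t i j)) (GG t P σ) = 0 := by
        rw [map_smul, hGGx, PhiPsi_pt, mul_zero]
      rw [map_add, map_mul, map_mul, h1, h2]
      ring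

lemma isGeproci_Zt {t : ℂ} (ht : Good t) : IsGeproci (Zt t) :=
  ⟨Set.finite_range _, DD t, DD_ne_zero ht, fun _ hP _ hπ => geproci_aux ht hP hπ⟩

/-! ### Non-triviality -/

/-- The monomials of degree two. -/
def mon (x : V4) : Fin 10 → ℂ :=
  ![x 0 * x 0, x 1 * x 1, x 2 * x 2, x 3 * x 3, x 0 * x 1, x 0 * x 2, x 0 * x 3, x 1 * x 2,
    x 1 * x 3, x 2 * x 3]

/-- The quadratic form with coefficients `c`. -/
noncomputable def quad (c : Fin 10 → ℂ) (x : V4) : ℂ := ∑ k, c k * mon x k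

/-- The bilinear form. -/
noncomputable def pol (c : Fin 10 → ℂ) (x y : V4) : ℂ := quad c (x + y) - quad c x - quad c y

lemma quad_comb (c : Fin 10 → ℂ) (x y : V4) (α β : ℂ) :
    quad c (α • x + β • y) = α ^ 2 * quad c x + α * β * pol c x y + β ^ 2 * quad c y := by
  simp [pol, quad, mon, Fin.sum_univ_succ]
  ring

lemma quad_smul (c : Fin 10 → ℂ) (x : V4) (α : ℂ) :
    quad c (α • x) = α ^ 2 * quad c x := by
  simp [quad, mon, Fin.sum_univ_succ]
  ring

/-- Three lines lie on a common quadric. -/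
lemma exists_quad (p q : Fin 3 → V4) : ∃ c : Fin 10 → ℂ, c ≠ 0 ∧
    ∀ k, quad c (p k) = 0 ∧ quad c (q k) = 0 ∧ quad c (p k + q k) = 0 := by
  let L : (Fin 10 → ℂ) →ₗ[ℂ] (Fin 3 × Fin 3 → ℂ) :=
    { toFun := fun c s => quad c (![p s.1, q s.1, p s.1 + q s.1] s.2)
      map_add' := by
        intro c d
        funext s
        simp only [quad, Pi.add_apply, add_mul, Finset.sum_add_distrib]
      map_smul' := by
        intro r c
        funext s
        simp only [quad, Pi.smul_apply, smul_eq_mul, RingHom.id_apply, Finset.mul_sum, mul_assoc] }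
  have h1 : LinearMap.ker L ≠ ⊥ := by
    apply LinearMap.ker_ne_bot_of_finrank_lt
    simp
  obtain ⟨c, hc, hc0⟩ := (Submodule.ne_bot_iff _).mp h1
  refine ⟨c, hc0, fun k => ?_⟩
  rw [LinearMap.mem_ker] at hc
  exact ⟨congrFun hc (k, 0), congrFun hc (k, 1), congrFun hc (k, 2)⟩

lemma quad_eq_zero_of_Zt {t : ℂ} {c : Fin 10 → ℂ} (h : ∀ i j, quad c (pt t i j) = 0) : c = 0 := by
  have h00 := h 0 0
  have h01 := h 0 1
  have h02 := h 0 2
  have h10 := h 1 0
  have h11 := h 1 1
  have h12 := h 1 2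
  have h20 := h 2 0
  have h21 := h 2 1
  have h22 := h 2 2
  have h30 := h 3 0
  have h31 := h 3 1
  have h32 := h 3 2
  simp [quad, mon, Fin.sum_univ_succ, pt, lpt, al, be, ee, ff] at h00 h01 h02 h10 h11 h12 h20 h21 h22 h30 h31 h32
  funext k
  fin_cases k
  · exact h00
  · exact h10
  · exact h20
  · exact h30
  · change c 4 = 0
    linear_combination (h01 - h02 - h11 + h12 - h21 - h22 + h31 + h32) / 8
  · change c 5 = 0
    linear_combination (h01 - h02 + h11 + h12 - h21 + h22 - h31 - h32) / 8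
  · change c 6 = 0
    linear_combination (h01 - h02 - h11 - h12 + h21 + h22 - h31 + h32) / 8
  · change c 7 = 0
    linear_combination (h01 + h02 - h11 + h12 + h21 - h22 - h31 - h32) / 8
  · change c 8 = 0
    linear_combination (h01 + h02 + h11 - h12 - h21 - h22 - h31 + h32) / 8
  · change c 9 = 0
    linear_combination (h01 + h02 - h11 - h12 - h21 + h22 + h31 - h32) / 8

lemma exists_quad_of_submodules (W : Fin 3 → Submodule ℂ V4)
    (hW : ∀ k, Module.finrank ℂ (W k) = 2) :
    ∃ c : Fin 10 → ℂ, c ≠ 0 ∧ ∀ k, ∀ x ∈ W k, quad c x = 0 := by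
  let b : ∀ k, Module.Basis (Fin 2) ℂ (W k) := fun k => Module.finBasisOfFinrankEq ℂ (W k) (hW k)
  obtain ⟨c, hc0, hc⟩ := exists_quad (fun k => (b k 0 : V4)) (fun k => (b k 1 : V4))
  refine ⟨c, hc0, fun k x hx => ?_⟩
  obtain ⟨h1, h2, h3⟩ := hc k
  have h4 : x = (b k).repr ⟨x, hx⟩ 0 • (b k 0 : V4) + (b k).repr ⟨x, hx⟩ 1 • (b k 1 : V4) := by
    have := congrArg (Subtype.val) ((b k).sum_repr ⟨x, hx⟩)
    rw [Fin.sum_univ_two] at this
    exact this.symm
  have h5 : pol c (b k 0 : V4) (b k 1 : V4) = 0 := by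
    unfold pol
    rw [h1, h2, h3]
    ring
  rw [h4, quad_comb, h1, h2, h5]
  ring

lemma quad_on_line {c : Fin 10 → ℂ} {B A0 A1 A2 : Submodule ℂ V4}
    (hB : Module.finrank ℂ B = 2)
    (h01 : A0 ⊓ A1 = ⊥) (h02 : A0 ⊓ A2 = ⊥) (h12 : A1 ⊓ A2 = ⊥)
    (m0 : Module.finrank ℂ (A0 ⊓ B : Submodule ℂ V4) = 1)
    (m1 : Module.finrank ℂ (A1 ⊓ B : Submodule ℂ V4) = 1)
    (m2 : Module.finrank ℂ (A2 ⊓ B : Submodule ℂ V4) = 1)
    (q0 : ∀ x ∈ A0, quad c x = 0) (q1 : ∀ x ∈ A1, quad c x = 0) (q2 : ∀ x ∈ A2, quad c x = 0) :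
    ∀ x ∈ B, quad c x = 0 := by
  have hne : ∀ {A : Submodule ℂ V4}, Module.finrank ℂ (A ⊓ B : Submodule ℂ V4) = 1 →
      ∃ x ∈ A, x ∈ B ∧ x ≠ 0 := by
    intro A hA
    have : A ⊓ B ≠ ⊥ := by
      intro h
      rw [h, finrank_bot] at hA
      exact zero_ne_one hA
    obtain ⟨x, hx, hx0⟩ := (Submodule.ne_bot_iff _).mp this
    exact ⟨x, hx.1, hx.2, hx0⟩
  obtain ⟨x0, a0, b0, n0⟩ := hne m0
  obtain ⟨x1, a1, b1, n1⟩ := hne m1
  obtain ⟨x2, a2, b2, n2⟩ := hne m2
  have hli : LinearIndependent ℂ ![x0, x1] := by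
    rw [LinearIndependent.pair_iff]
    intro α β h
    have h1 : α • x0 ∈ A0 ⊓ A1 := by
      refine ⟨A0.smul_mem α a0, ?_⟩
      have : α • x0 = -(β • x1) := eq_neg_of_add_eq_zero_left h
      rw [this]
      exact A1.neg_mem (A1.smul_mem β a1)
    rw [h01, Submodule.mem_bot] at h1
    have h2 : α = 0 := (smul_eq_zero.mp h1).resolve_right n0
    rw [h2, zero_smul, zero_add] at h
    exact ⟨h2, (smul_eq_zero.mp h).resolve_right n1⟩
  have hspan : Submodule.span ℂ (Set.range ![x0, x1]) = B := by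
    apply Submodule.eq_of_le_of_finrank_eq
    · rw [Submodule.span_le]
      rintro _ ⟨k, rfl⟩
      fin_cases k
      · exact b0
      · exact b1
    · rw [finrank_span_eq_card hli, hB]
      simp
  have hcomb : ∀ x ∈ B, ∃ α β : ℂ, x = α • x0 + β • x1 := by
    intro x hx
    rw [← hspan] at hx
    have : Set.range ![x0, x1] = {x0, x1} := by simp [Set.pair_comm]
    rw [this, Submodule.mem_span_pair] at hx
    obtain ⟨α, β, h⟩ := hx
    exact ⟨α, β, h.symm⟩
  obtain ⟨α, β, h2⟩ := hcomb x2 b2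
  have hα : α ≠ 0 := by
    rintro rfl
    rw [zero_smul, zero_add] at h2
    have : x2 ∈ A1 ⊓ A2 := ⟨by rw [h2]; exact A1.smul_mem β a1, a2⟩
    rw [h12, Submodule.mem_bot] at this
    exact n2 this
  have hβ : β ≠ 0 := by
    rintro rfl
    rw [zero_smul, add_zero] at h2
    have : x2 ∈ A0 ⊓ A2 := ⟨by rw [h2]; exact A0.smul_mem α a0, a2⟩
    rw [h02, Submodule.mem_bot] at this
    exact n2 this
  have hq := q2 x2 a2
  rw [h2, quad_comb, q0 x0 a0, q1 x1 a1, mul_zero, zero_add, mul_zero, add_zero] at hq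
  have hpol : pol c x0 x1 = 0 := (mul_eq_zero.mp hq).resolve_left (mul_ne_zero hα hβ)
  intro x hx
  obtain ⟨γ, δ, h⟩ := hcomb x hx
  rw [h, quad_comb, q0 x0 a0, q1 x1 a1, hpol]
  ring

/-- A grid lies on a quadric. -/
lemma grid_quad {Z : Set P3} (h : IsGrid Z) :
    ∃ c : Fin 10 → ℂ, c ≠ 0 ∧ ∀ (x : V4) (hx : x ≠ 0), Projectivization.mk ℂ x hx ∈ Z →
      quad c x = 0 := by
  obtain ⟨a, b, ha, -, A, B, hA, hB, hAA, -, hAB, rfl⟩ := h
  obtain ⟨c, hc0, hc⟩ := exists_quad_of_submodules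
    (fun k : Fin 3 => A ⟨min k.val (a - 1), by omega⟩) (fun k => hA _)
  refine ⟨c, hc0, ?_⟩
  rintro x hx ⟨i, j, hij⟩
  have hxm : x ∈ A i ⊓ B j := by
    rw [← hij, Projectivization.submodule_mk]
    exact Submodule.mem_span_singleton_self x
  by_cases h3 : a ≤ 3
  · have := hc ⟨i.val, by omega⟩ x
    apply this
    have h4 : (⟨min i.val (a - 1), by omega⟩ : Fin a) = i := by
      apply Fin.ext
      simp only
      omega
    change x ∈ A ⟨min i.val (a - 1), _⟩
    rw [h4]
    exact hxm.1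
  · have e0 : ∀ k : Fin 3, ∀ y ∈ A ⟨k.val, by omega⟩, quad c y = 0 := by
      intro k y hy
      apply hc k y
      have h4 : (⟨min k.val (a - 1), by omega⟩ : Fin a) = ⟨k.val, by omega⟩ := by
        apply Fin.ext
        simp only
        omega
      change y ∈ A ⟨min k.val (a - 1), _⟩
      rw [h4]
      exact hy
    have ne : ∀ k l : Fin 3, k ≠ l → A ⟨k.val, by omega⟩ ⊓ A ⟨l.val, by omega⟩ = ⊥ := by
      intro k l hkl
      apply hAA
      intro h
      apply hkl
      apply Fin.ext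
      have := congrArg (fun z : Fin a => z.val) h
      exact this
    exact quad_on_line (hB j) (ne 0 1 (by decide)) (ne 0 2 (by decide)) (ne 1 2 (by decide))
      (hAB _ j) (hAB _ j) (hAB _ j) (e0 0) (e0 1) (e0 2) x hxm.2

lemma not_isGrid_Zt (t : ℂ) : ¬ IsGrid (Zt t) := by
  intro h
  obtain ⟨c, hc0, hc⟩ := grid_quad h
  apply hc0
  apply quad_eq_zero_of_Zt (t := t)
  intro i j
  exact hc (pt t i j) (pt_ne_zero t i j) ⟨(i, j), rfl⟩

lemma pt_zero (t : ℂ) (i : Fin 4) : pt t i 0 = Pi.single i 1 := by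
  funext k
  fin_cases i <;> fin_cases k <;> simp [pt, lpt, al, be, ee, ff]

lemma rep_mk {x : V4} (hx : x ≠ 0) : ∃ c : ℂ, c ≠ 0 ∧ (Projectivization.mk ℂ x hx).rep = c • x := by
  obtain ⟨a, ha⟩ := Projectivization.exists_smul_eq_mk_rep ℂ x hx
  exact ⟨a, a.ne_zero, ha.symm⟩

lemma not_isDegenerate_Zt (t : ℂ) : ¬ IsDegenerate (Zt t) := by
  rintro ⟨φ, hφ, h⟩
  apply hφ
  apply LinearMap.pi_ext'
  intro i
  ext
  have h1 := h (Projectivization.mk ℂ (pt t i 0) (pt_ne_zero t i 0)) ⟨(i, 0), rfl⟩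
  obtain ⟨c, hc, hr⟩ := rep_mk (pt_ne_zero t i 0)
  rw [hr, map_smul, smul_eq_mul] at h1
  have h2 := (mul_eq_zero.mp h1).resolve_left hc
  rw [pt_zero] at h2
  simpa using h2

/-! ### The matroids -/

/-- The matrix of four points. -/
def cmat (t : ℂ) (g : Fin 4 → Fin 4 × Fin 6) : Matrix (Fin 4) (Fin 4) ℂ :=
  Matrix.of fun k l => pt t (g k).1 (g k).2 l

/-- The matrix of polynomials. -/
noncomputable def pmat (g : Fin 4 → Fin 4 × Fin 6) : Matrix (Fin 4) (Fin 4) (Polynomial ℤ) :=
  Matrix.of fun k l => pt (Polynomial.X : Polynomial ℤ) (g k).1 (g k).2 l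

lemma aeval_det (t : ℂ) (g : Fin 4 → Fin 4 × Fin 6) :
    Polynomial.aeval t (pmat g).det = (cmat t g).det := by
  have h : Polynomial.aeval t (pmat g).det =
      (Polynomial.aeval t : Polynomial ℤ →ₐ[ℤ] ℂ).toRingHom (pmat g).det := rfl
  rw [h, RingHom.map_det]
  congr 1
  ext k l
  change (Polynomial.aeval t : Polynomial ℤ →ₐ[ℤ] ℂ).toRingHom (pt Polynomial.X _ _ l) = _
  rw [map_pt]
  simp [cmat]

lemma linInd_iff_det (t : ℂ) (g : Fin 4 → Fin 4 × Fin 6) :
    LinearIndependent ℂ (fun k => pt t (g k).1 (g k).2) ↔ (cmat t g).det ≠ 0 := by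
  rw [← isUnit_iff_ne_zero, ← Matrix.isUnit_iff_isUnit_det, ← Matrix.linearIndependent_rows_iff_isUnit]
  rfl

lemma linInd_transfer {t t' : ℂ} (ht' : Transcendental ℤ t')
    (g : Fin 4 → Fin 4 × Fin 6) (h : LinearIndependent ℂ (fun k => pt t (g k).1 (g k).2)) :
    LinearIndependent ℂ (fun k => pt t' (g k).1 (g k).2) := by
  rw [linInd_iff_det, ← aeval_det] at h ⊢
  intro h0
  apply h
  have : (pmat g).det = 0 := by
    by_contra hne
    exact ht' ⟨_, hne, h0⟩
  rw [this, map_zero]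

/-- The points as a family indexed by pairs. -/
noncomputable def vv (t : ℂ) (s : Fin 4 × Fin 6) : V4 := pt t s.1 s.2

lemma span_vv (t : ℂ) : Submodule.span ℂ (Set.range (vv t)) = ⊤ := by
  rw [eq_top_iff, ← (Pi.basisFun ℂ (Fin 4)).span_eq, Submodule.span_le]
  rintro _ ⟨i, rfl⟩
  apply Submodule.subset_span
  refine ⟨(i, 0), ?_⟩
  simp [vv, pt_zero, Pi.basisFun_apply]

lemma linIndepOn_transfer {t t' : ℂ} (ht' : Transcendental ℤ t')
    (A : Set (Fin 4 × Fin 6)) (h : LinearIndepOn ℂ (vv t) A) : LinearIndepOn ℂ (vv t') A := by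
  obtain ⟨B, -, hAB, hspan, hB⟩ := exists_linearIndepOn_extension h (Set.subset_univ A)
  apply LinearIndepOn.mono _ hAB
  have htop : Submodule.span ℂ (vv t '' B) = ⊤ := by
    rw [eq_top_iff, ← span_vv t, Submodule.span_le, ← Set.image_univ]
    exact hspan
  have hcard : Nat.card B = 4 := by
    have h1 : Module.finrank ℂ (Submodule.span ℂ (vv t '' B)) = 4 := by
      rw [htop, finrank_top]; simp
    have h2 : vv t '' B = Set.range (fun b : B => vv t b) := by
      ext x; simp
    have : Fintype B := Fintype.ofFinite B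
    rw [h2, finrank_span_eq_card hB] at h1
    rw [Nat.card_eq_fintype_card]
    exact h1
  let g : Fin 4 ≃ B := (Finite.equivFinOfCardEq hcard).symm
  have h1 : LinearIndependent ℂ (fun k => vv t (g k)) := hB.comp g g.injective
  have h2 : LinearIndependent ℂ (fun k => vv t' (g k)) := linInd_transfer ht' (fun k => (g k : Fin 4 × Fin 6)) h1
  have h3 := h2.comp g.symm g.symm.injective
  change LinearIndependent ℂ (fun b : B => vv t' b)
  convert h3 using 2 with b
  simp

lemma mk_injective {t : ℂ} (ht : Good t) : Function.Injective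
    (fun ij : Fin 4 × Fin 6 => Projectivization.mk ℂ (pt t ij.1 ij.2) (pt_ne_zero t _ _)) := by
  rintro ⟨i, j⟩ ⟨k, l⟩ h
  simp only at h
  rw [Projectivization.mk_eq_mk_iff'] at h
  obtain ⟨c, hc⟩ := h
  obtain ⟨h1, h2⟩ := pt_inj ht hc.symm
  rw [h1, h2]

/-- The enumeration of the points. -/
noncomputable def EE {t : ℂ} (ht : Good t) : Fin 4 × Fin 6 ≃ Zt t :=
  Equiv.ofInjective _ (mk_injective ht)

lemma EE_rep {t : ℂ} (ht : Good t) (s : Fin 4 × Fin 6) :
    ∃ a : ℂˣ, a • vv t s = (EE ht s : P3).rep :=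
  Projectivization.exists_smul_eq_mk_rep ℂ (pt t s.1 s.2) (pt_ne_zero t _ _)

lemma indep_iff {t : ℂ} (ht : Good t) (A : Set (Fin 4 × Fin 6)) :
    LinearIndependent ℂ (fun s : A => (EE ht s : P3).rep) ↔ LinearIndepOn ℂ (vv t) A := by
  choose a ha using EE_rep ht
  have : (fun s : A => (EE ht s : P3).rep) = (fun s : A => a s) • (fun s : A => vv t s) := by
    funext s
    exact (ha s).symm
  rw [this]
  exact LinearIndependent.units_smul_iff (fun s : A => vv t s) (fun s : A => a s)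

lemma matroidsIsomorphic {t t' : ℂ} (ht : Good t) (ht' : Good t') (h : Transcendental ℤ t)
    (h' : Transcendental ℤ t') : MatroidsIsomorphic (Zt t) (Zt t') := by
  refine ⟨(EE ht).symm.trans (EE ht'), fun A => ?_⟩
  set A' : Set (Fin 4 × Fin 6) := {s | EE ht s ∈ A} with hA'
  let φ : A' ≃ A := (EE ht).subtypeEquiv (fun s => Iff.rfl)
  have h1 : LinearIndependent ℂ (fun a : A => (a.1 : P3).rep) ↔ LinearIndepOn ℂ (vv t) A' := by
    rw [← indep_iff ht, ← linearIndependent_equiv φ]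
    rfl
  have h2 : LinearIndependent ℂ (fun a : A => ((EE ht).symm.trans (EE ht') a.1 : P3).rep) ↔
      LinearIndepOn ℂ (vv t') A' := by
    rw [← indep_iff ht', ← linearIndependent_equiv φ]
    have : ((fun a : A => ((EE ht).symm.trans (EE ht') a.1 : P3).rep) ∘ φ) =
        fun s : A' => (EE ht' s : P3).rep := by
      funext s
      simp [φ]
    rw [this]
  rw [h1, h2]
  exact ⟨linIndepOn_transfer h' A', linIndepOn_transfer h A'⟩

lemma good_of_transcendental {t : ℂ} (h : Transcendental ℤ t) : Good t := by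
  have key : ∀ p : Polynomial ℤ, p ≠ 0 → Polynomial.aeval t p ≠ 0 :=
    fun p hp h0 => h ⟨p, hp, h0⟩
  refine ⟨?_, ?_, ?_, ?_, ?_, ?_⟩
  · have := key Polynomial.X Polynomial.X_ne_zero
    simpa using this
  · have := key (Polynomial.X - 1) (by
      intro h
      have := congrArg (Polynomial.eval 0) h
      simp at this)
    simpa using this
  · have := key (Polynomial.X + 1) (by
      intro h
      have := congrArg (Polynomial.eval 0) h
      simp at this)
    simpa using this
  · have := key (1 + 3 * Polynomial.X ^ 2) (by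
      intro h
      have := congrArg (Polynomial.eval 0) h
      simp at this)
    simpa [map_ofNat] using this
  · have := key (1 - 3 * Polynomial.X) (by
      intro h
      have := congrArg (Polynomial.eval 0) h
      simp at this)
    simpa [map_ofNat] using this
  · have := key (1 + 3 * Polynomial.X) (by
      intro h
      have := congrArg (Polynomial.eval 0) h
      simp at this)
    simpa [map_ofNat] using this

/-! ### Projective equivalence -/

lemma fix_line {h : V4 ≃ₗ[ℂ] V4} {e f : V4} {t t' l0 l1 l2 l3 : ℂ}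
    (hli : ∀ α β : ℂ, α • e + β • f = 0 → α = 0 ∧ β = 0)
    (h0 : h e = l0 • e) (h1 : h (e + f) = l1 • (e + f)) (h2 : h (e - f) = l2 • (e - f))
    (h3 : h (e + t • f) = l3 • (e + t' • f)) : t = t' := by
  have hf : h f = (l1 - l0) • e + l1 • f := by
    have : h f = h (e + f) - h e := by rw [map_add]; abel
    rw [this, h1, h0]
    module
  have e1 : (l0 - (l1 - l0) - l2) • e + (l2 - l1) • f = 0 := by
    rw [map_sub, h0, hf] at h2
    have : (l0 - (l1 - l0) - l2) • e + (l2 - l1) • f =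
      (l0 • e - ((l1 - l0) • e + l1 • f)) - l2 • (e - f) := by module
    rw [this, h2, sub_self]
  obtain ⟨a1, a2⟩ := hli _ _ e1
  have hl1 : l1 = l0 := by linear_combination (-1 / 2) * a1 - (1 / 2) * a2
  have e2 : (l0 - l3) • e + (t * l0 - l3 * t') • f = 0 := by
    rw [map_add, map_smul, h0, hf, hl1] at h3
    have : (l0 - l3) • e + (t * l0 - l3 * t') • f =
      (l0 • e + t • ((l0 - l0) • e + l0 • f)) - l3 • (e + t' • f) := by module
    rw [this, h3, sub_self]
  obtain ⟨b1, b2⟩ := hli _ _ e2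
  have hl0 : l0 ≠ 0 := by
    rintro rfl
    rw [zero_smul] at h0
    have he : e = 0 := h.map_eq_zero_iff.mp h0
    have := hli 1 0 (by rw [he, smul_zero, zero_smul, add_zero])
    exact one_ne_zero this.1
  apply mul_left_cancel₀ hl0
  linear_combination b2 - t' * b1

lemma transcendental_infinite : Set.Infinite {t : ℂ | Transcendental ℤ t} := by
  intro hfin
  have h1 : Set.Countable {t : ℂ | IsAlgebraic ℤ t} := Algebraic.countable ℤ ℂ
  have h2 : (Set.univ : Set ℂ) = {t : ℂ | Transcendental ℤ t} ∪ {t : ℂ | IsAlgebraic ℤ t} := by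
    ext t
    simp only [Set.mem_univ, Set.mem_union, Set.mem_ofPred_eq, true_iff]
    by_cases h : IsAlgebraic ℤ t
    · exact Or.inr h
    · exact Or.inl h
  have h3 : (Set.univ : Set ℂ).Countable := by
    rw [h2]
    exact hfin.countable.union h1
  exact not_countable_complex h3

/-- Two non-trivial geproci sets in projective three-space with isomorphic matroids need not be
projectively equivalent. -/
theorem result : ∃ Z Z' : Set P3, IsNontrivialGeproci Z ∧ IsNontrivialGeproci Z' ∧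
    MatroidsIsomorphic Z Z' ∧ ¬ ProjectivelyEquivalent Z Z' := by
  by_contra hcon
  push Not at hcon
  have htriv : ∀ t : ℂ, Transcendental ℤ t → IsNontrivialGeproci (Zt t) := fun t h =>
    ⟨isGeproci_Zt (good_of_transcendental h), not_isDegenerate_Zt t, not_isGrid_Zt t⟩
  set T : Set ℂ := {t : ℂ | Transcendental ℤ t} with hT
  have hTinf : Infinite T := transcendental_infinite.to_subtype
  obtain ⟨t0, ht0⟩ := transcendental_infinite.nonempty
  have hequiv : ∀ t : T, ∃ g : V4 ≃ₗ[ℂ] V4,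
      Projectivization.map g.toLinearMap g.injective '' (Zt t) = Zt t0 := fun t =>
    hcon (Zt t) (Zt t0) (htriv t t.2) (htriv t0 ht0)
      (matroidsIsomorphic (good_of_transcendental t.2) (good_of_transcendental ht0) t.2 ht0)
  choose g hg using hequiv
  -- the indices of the images of the first four points
  have hidx : ∀ (t : T) (j : Fin 6), ∃ s : Fin 4 × Fin 6, ∃ c : ℂ, c ≠ 0 ∧
      g t (pt (t : ℂ) 0 j) = c • pt t0 s.1 s.2 := by
    intro t j
    have h1 : g t (pt (t : ℂ) 0 j) ≠ 0 := by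
      rw [Ne, (g t).map_eq_zero_iff]
      exact pt_ne_zero _ _ _
    have h2 : Projectivization.mk ℂ (g t (pt (t : ℂ) 0 j)) h1 ∈ Zt t0 := by
      rw [← hg t]
      exact ⟨_, ⟨(0, j), rfl⟩, rfl⟩
    obtain ⟨i, j', c, hc, h3⟩ := mem_Zt h1 h2
    exact ⟨(i, j'), c, hc, h3⟩
  choose s c hc hs using hidx
  obtain ⟨t, t', htt, hst⟩ := Finite.exists_ne_map_eq_of_infinite s
  apply htt
  apply Subtype.ext
  have hmap : ∀ j, (g t).trans (g t').symm (pt (t : ℂ) 0 j) =
      (c t j * (c t' j)⁻¹) • pt (t' : ℂ) 0 j := by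
    intro j
    have h1 : g t' ((c t j * (c t' j)⁻¹) • pt (t' : ℂ) 0 j) = g t (pt (t : ℂ) 0 j) := by
      rw [map_smul, hs, hs, hst, smul_smul, mul_assoc, inv_mul_cancel₀ (hc t' j), mul_one]
    rw [LinearEquiv.trans_apply, ← h1, LinearEquiv.symm_apply_apply]
  have hp : ∀ (r : ℂ) (j : Fin 6), pt r 0 j =
      al r j • (Pi.single 0 1 : V4) + be r j • (fun k => (ff 0 k : ℂ) : V4) := by
    intro r j
    funext k
    fin_cases k <;> simp [pt, lpt, ee, ff]
  have e0 := hmap 0
  have e1 := hmap 1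
  have e2 := hmap 2
  have e3 := hmap 3
  rw [hp, hp] at e0 e1 e2 e3
  have hli : ∀ α β : ℂ, α • (Pi.single 0 1 : V4) + β • (fun k => (ff 0 k : ℂ) : V4) = 0 →
      α = 0 ∧ β = 0 := by
    intro α β h
    have h0 := congrFun h 0
    have h1 := congrFun h 1
    simp [ff] at h0 h1
    exact ⟨h0, h1⟩
  refine fix_line (h := (g t).trans (g t').symm) (e := Pi.single 0 1)
    (f := fun k => (ff 0 k : ℂ)) hli (l0 := c t 0 * (c t' 0)⁻¹) (l1 := c t 1 * (c t' 1)⁻¹)
    (l2 := c t 2 * (c t' 2)⁻¹) (l3 := c t 3 * (c t' 3)⁻¹) ?_ ?_ ?_ ?_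
  · simpa [al, be] using e0
  · simpa [al, be] using e1
  · simpa [al, be, ← sub_eq_add_neg] using e2
  · simpa [al, be] using e3

end Pool.Agent.Results.MP_586029_ag.GeprociMatroid
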